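import Pool.Agent.helper62.RP.Spec

/-!
# Row SUB: the norm of a pushed element of the group algebra (MP_07c750_an)
-/

set_option autoImplicit false

open Polynomial Filter
open Pool.Agent.QU

namespace Pool.Agent.RP

section SUBsec

variable {G H : Type} [Group G] [Group H]

theorem SUB_coeff (a u : MonoidAlgebra ℂ G) (x : G) :
    (a * u).coeff x = ∑ γ ∈ a.coeff.support, a.coeff γ * u.coeff (γ⁻¹ * x) := by
  have h1 : a = ∑ γ ∈ a.coeff.support, MonoidAlgebra.single γ (a.coeff γ) :=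
    (MonoidAlgebra.sum_coeff_single a).symm
  conv_lhs => rw [h1]
  rw [Finset.sum_mul, MonoidAlgebra.coeff_sum, Finsupp.finsetSum_apply]
  refine Finset.sum_congr rfl fun γ _ => ?_
  exact MonoidAlgebra.coeff_single_mul_eq_mul_coeff (γ⁻¹ * x) (fun m' _ => by
    constructor
    · rintro rfl
      group
    · rintro rfl
      group)

theorem SUB_push (ι : H →* G) (a : MonoidAlgebra ℂ H) (u : MonoidAlgebra ℂ G) (x : G) :
    (push ι a * u).coeff x = ∑ γ ∈ a.coeff.support, a.coeff γ * u.coeff ((ι γ)⁻¹ * x) := by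
  unfold push
  rw [Finset.sum_mul, MonoidAlgebra.coeff_sum, Finsupp.finsetSum_apply]
  refine Finset.sum_congr rfl fun γ _ => ?_
  exact MonoidAlgebra.coeff_single_mul_eq_mul_coeff ((ι γ)⁻¹ * x) (fun m' _ => by
    constructor
    · rintro rfl
      group
    · rintro rfl
      group)

theorem SUB_inj {ι : H →* G} (hι : Function.Injective ι) (g : G) :
    Function.Injective (fun h : H => ι h * g) := by
  intro h h' e
  exact hι (mul_right_cancel e)

/-- the restriction of `v` to the right coset of `g` -/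
noncomputable def SUB_res {ι : H →* G} (hι : Function.Injective ι) (v : MonoidAlgebra ℂ G) (g : G) :
    MonoidAlgebra ℂ H :=
  MonoidAlgebra.ofCoeff (Finsupp.comapDomain (fun h : H => ι h * g) v.coeff
    (SUB_inj hι g).injOn)

theorem SUB_res_coeff {ι : H →* G} (hι : Function.Injective ι) (v : MonoidAlgebra ℂ G) (g : G) (h : H) :
    (SUB_res hι v g).coeff h = v.coeff (ι h * g) := rfl

theorem SUB_mul {ι : H →* G} (hι : Function.Injective ι) (a : MonoidAlgebra ℂ H)
    (u : MonoidAlgebra ℂ G) (g : G) :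
    SUB_res hι (push ι a * u) g = a * SUB_res hι u g := by
  apply MonoidAlgebra.coeff_injective
  ext h
  rw [SUB_res_coeff, SUB_push, SUB_coeff]
  refine Finset.sum_congr rfl fun γ _ => ?_
  rw [SUB_res_coeff, map_mul ι, map_inv ι, mul_assoc]

theorem SUB_sq (v : MonoidAlgebra ℂ G) : l2 v ^ 2 = ∑ x ∈ v.coeff.support, ‖v.coeff x‖ ^ 2 := by
  unfold l2
  rw [Real.sq_sqrt]
  exact Finset.sum_nonneg fun _ _ => by positivity

/-- the class of `x` modulo the range of `ι` -/
def SUB_Q (ι : H →* G) (x : G) : Quotient (QuotientGroup.rightRel ι.range) :=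
  Quotient.mk _ x

theorem SUB_Q_iff (ι : H →* G) (x g : G) : SUB_Q ι x = SUB_Q ι g ↔ ∃ h : H, x = ι h * g := by
  unfold SUB_Q
  rw [Quotient.eq, QuotientGroup.rightRel_apply]
  constructor
  · rintro ⟨h, hh⟩
    refine ⟨h⁻¹, ?_⟩
    rw [map_inv, hh]
    group
  · rintro ⟨h, rfl⟩
    refine ⟨h⁻¹, ?_⟩
    rw [map_inv]
    group

open Classical in
theorem SUB_l2 {ι : H →* G} (hι : Function.Injective ι) (v : MonoidAlgebra ℂ G) (g : G) :
    l2 (SUB_res hι v g) ^ 2 =
      ∑ x ∈ v.coeff.support with SUB_Q ι x = SUB_Q ι g, ‖v.coeff x‖ ^ 2 := by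
  rw [SUB_sq]
  refine Finset.sum_nbij (fun h => ι h * g) ?_ ?_ ?_ ?_
  · intro h hh
    rw [Finsupp.mem_support_iff, SUB_res_coeff] at hh
    rw [Finset.mem_filter, Finsupp.mem_support_iff]
    exact ⟨hh, (SUB_Q_iff ι _ g).2 ⟨h, rfl⟩⟩
  · exact (SUB_inj hι g).injOn
  · intro x hx
    rw [Finset.mem_coe, Finset.mem_filter, Finsupp.mem_support_iff] at hx
    obtain ⟨h, rfl⟩ := (SUB_Q_iff ι x g).1 hx.2
    refine ⟨h, ?_, rfl⟩
    rw [Finset.mem_coe, Finsupp.mem_support_iff, SUB_res_coeff]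
    exact hx.1
  · intro h _
    rw [SUB_res_coeff]

open Classical in
theorem SUB_sum (ι : H →* G) (v : MonoidAlgebra ℂ G) (I : Finset (Quotient (QuotientGroup.rightRel ι.range)))
    (hI : ∀ x ∈ v.coeff.support, SUB_Q ι x ∈ I) :
    l2 v ^ 2 = ∑ q ∈ I, ∑ x ∈ v.coeff.support with SUB_Q ι x = q, ‖v.coeff x‖ ^ 2 := by
  rw [SUB_sq, Finset.sum_fiberwise_of_maps_to hI]

end SUBsec

/-- The norm of a pushed element. -/
theorem SUB (h1 : RNB_stmt) : SUB_stmt := by
  classical
  intro G H _ _ ι hι a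
  have ha := h1 H a a
  obtain ⟨ha0, ha1, -⟩ := ha
  refine (h1 G (push ι a) (push ι a)).2.2.1 (regNorm a) ha0 fun u => ?_
  have hl : ∀ v : MonoidAlgebra ℂ G, 0 ≤ l2 v := fun v => Real.sqrt_nonneg _
  have hl' : ∀ v : MonoidAlgebra ℂ H, 0 ≤ l2 v := fun v => Real.sqrt_nonneg _
  refine le_of_sq_le_sq ?_ (mul_nonneg ha0 (hl u))
  rw [mul_pow]
  set P := push ι a * u with hP
  set I := (P.coeff.support ∪ u.coeff.support).image (SUB_Q ι) with hI
  rw [SUB_sum ι P I (fun x hx => Finset.mem_image_of_mem _ (Finset.mem_union_left _ hx)),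
    SUB_sum ι u I (fun x hx => Finset.mem_image_of_mem _ (Finset.mem_union_right _ hx)),
    Finset.mul_sum]
  refine Finset.sum_le_sum fun q hq => ?_
  obtain ⟨g, -, rfl⟩ := Finset.mem_image.1 hq
  rw [← SUB_l2 hι P g, ← SUB_l2 hι u g, hP, SUB_mul, ← mul_pow]
  exact pow_le_pow_left₀ (hl' _) (ha1 _) 2

end Pool.Agent.RP
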