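import Pool.Agent.helper62.RP.Spec

/-!
# Row TRE: the tree of the free group (MP_07c750_an)
-/

set_option autoImplicit false

open Polynomial Filter
open Pool.Agent.QU

namespace Pool.Agent.RP

theorem TRE_norm (x y : F2) (h : Sep x y) : (x⁻¹ * y).norm = x.norm + y.norm := by
  rcases h with h | h | h
  · subst h
    simp
  · subst h
    simp
  · have h1 : FreeGroup.IsReduced (FreeGroup.invRev x.toWord ++ y.toWord) := by
      refine List.IsChain.append ?_ FreeGroup.isReduced_toWord ?_
      · have := FreeGroup.isReduced_toWord (x := x⁻¹)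
        rwa [FreeGroup.toWord_inv] at this
      · intro a ha b hb hab
        unfold FreeGroup.invRev at ha
        rw [List.getLast?_reverse, List.head?_map, Option.mem_def, Option.map_eq_some_iff] at ha
        obtain ⟨c, hc, rfl⟩ := ha
        rw [Option.mem_def] at hb
        rw [hc, hb] at h
        simp only at hab ⊢
        have h2 : c.2 ≠ b.2 := fun e => h (by rw [Prod.ext hab e])
        revert h2
        cases c.2 <;> cases b.2 <;> simp
    unfold FreeGroup.norm
    rw [FreeGroup.toWord_mul, FreeGroup.toWord_inv, h1.reduce_eq, List.length_append,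
      FreeGroup.invRev_length]

theorem TRE_sep (x y w : F2) (h : Sep x y) : Sep x w ∨ Sep w y := by
  rcases h with h | h | h
  · exact Or.inl (Or.inl h)
  · exact Or.inr (Or.inr (Or.inl h))
  · by_cases h1 : x.toWord.head? = w.toWord.head?
    · exact Or.inr (Or.inr (Or.inr (h1 ▸ h)))
    · exact Or.inl (Or.inr (Or.inr h1))

/-- The tree of the free group. -/
theorem TRE : TRE_stmt := by
  refine ⟨TRE_norm, TRE_sep, fun x y x' q h hq => ?_⟩
  rcases TRE_sep x y x' h with h1 | h1
  · left
    rw [TRE_norm x x' h1] at hq
    omega
  · exact Or.inr h1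

end Pool.Agent.RP
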